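import Mathlib

/-!
# Project KS, package LW: core (Mathlib only)
-/

set_option autoImplicit false

noncomputable section

namespace Pool.Agent.P8H38.KS

open Real Set MeasureTheory Filter

theorem countable_cos2 (c : ℝ) : {t : ℝ | Real.cos (2 * π * t) = c}.Countable := by
  by_cases h : ∃ t₀ : ℝ, Real.cos (2 * π * t₀) = c
  · obtain ⟨t₀, h0⟩ := h
    have h1 : (range fun k : ℤ => (t₀ - k : ℝ)).Countable := countable_range _
    have h2 : (range fun k : ℤ => (k - t₀ : ℝ)).Countable := countable_range _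
    refine (h1.union h2).mono ?_
    intro t ht
    have hpi := Real.pi_pos
    have h3 : Real.cos (2 * π * t) = Real.cos (2 * π * t₀) := by
      rw [h0]
      exact ht
    rw [Real.cos_eq_cos_iff] at h3
    obtain ⟨k, hk | hk⟩ := h3
    · left
      refine ⟨k, ?_⟩
      have h4 : π * (t - (t₀ - k)) = 0 := by linarith
      have := (mul_eq_zero.1 h4).resolve_left hpi.ne'
      simp only
      linarith
    · right
      refine ⟨k, ?_⟩
      have h4 : π * (t - (k - t₀)) = 0 := by linarith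
      have := (mul_eq_zero.1 h4).resolve_left hpi.ne'
      simp only
      linarith
  · have h1 : {t : ℝ | Real.cos (2 * π * t) = c} = ∅ := by
      ext t
      constructor
      · intro ht
        exact (h ⟨t, ht⟩).elim
      · intro ht
        exact ht.elim
    rw [h1]
    exact countable_empty

theorem circ (z : ℂ) (hz : ‖z‖ = 1) :
    IntervalIntegrable (fun θ : ℝ => Real.log ‖circleMap 0 1 θ - z‖) volume 0 (2 * π) ∧
    ∫ θ in (0 : ℝ)..(2 * π), Real.log ‖circleMap 0 1 θ - z‖ = 0 := by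
  constructor
  · exact circleIntegrable_log_norm_sub_const (a := z) (c := 0) 1
  · have h := circleAverage_log_norm_sub_const₁ hz
    rw [circleAverage_def] at h
    have h1 : (2 * π)⁻¹ ≠ 0 := inv_ne_zero (by positivity)
    exact (smul_eq_zero.1 h).resolve_left h1

theorem core0 (k : ℝ) (hk : |k| < 2) :
    IntervalIntegrable (fun θ : ℝ => Real.log |k - 2 * Real.cos θ|) volume 0 (2 * π) ∧
    ∫ θ in (0 : ℝ)..(2 * π), Real.log |k - 2 * Real.cos θ| = 0 := by
  rw [abs_lt] at hk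
  obtain ⟨α, hα⟩ : ∃ α : ℝ, 2 * Real.cos α = k :=
    ⟨Real.arccos (k / 2), by rw [Real.cos_arccos (by linarith) (by linarith)]; ring⟩
  have hz1 : ∀ β : ℝ, ‖circleMap 0 1 β‖ = 1 := fun β => by simp
  obtain ⟨i1, e1⟩ := circ (circleMap 0 1 α) (hz1 α)
  obtain ⟨i2, e2⟩ := circ (circleMap 0 1 (-α)) (hz1 (-α))
  have hcm : ∀ β : ℝ, circleMap 0 1 β = Complex.exp (β * Complex.I) := fun β => by
    simp [circleMap]
  have hnorm : ∀ θ : ℝ, ‖circleMap 0 1 θ - circleMap 0 1 α‖ *
      ‖circleMap 0 1 θ - circleMap 0 1 (-α)‖ = |k - 2 * Real.cos θ| := by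
    intro θ
    rw [← norm_mul]
    have h1 : (circleMap 0 1 θ - circleMap 0 1 α) * (circleMap 0 1 θ - circleMap 0 1 (-α)) =
        circleMap 0 1 θ * ((2 * Real.cos θ - k : ℝ) : ℂ) := by
      rw [hcm, hcm, hcm, ← hα]
      push_cast
      rw [Complex.two_cos, Complex.two_cos]
      have e1 : Complex.exp (θ * Complex.I) * Complex.exp (-θ * Complex.I) = 1 := by
        rw [← Complex.exp_add]
        simp
      have e2 : Complex.exp (α * Complex.I) * Complex.exp (-α * Complex.I) = 1 := by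
        rw [← Complex.exp_add]
        simp
      linear_combination e2 - e1
    rw [h1, norm_mul, hz1, one_mul, Complex.norm_real, Real.norm_eq_abs, abs_sub_comm]
  have hbad : ∀ z : ℂ, ∀ᵐ θ : ℝ, circleMap 0 1 θ ≠ z := fun z =>
    ((countable_singleton z).preimage_circleMap 0 (one_ne_zero)).ae_notMem volume
  have hae : ∀ᵐ θ : ℝ, Real.log ‖circleMap 0 1 θ - circleMap 0 1 α‖ +
      Real.log ‖circleMap 0 1 θ - circleMap 0 1 (-α)‖ = Real.log |k - 2 * Real.cos θ| := by
    filter_upwards [hbad (circleMap 0 1 α), hbad (circleMap 0 1 (-α))] with θ h1 h2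
    rw [← Real.log_mul (norm_ne_zero_iff.2 (sub_ne_zero.2 h1))
      (norm_ne_zero_iff.2 (sub_ne_zero.2 h2)), hnorm]
  constructor
  · exact (i1.add i2).congr_ae (ae_restrict_of_ae hae)
  · rw [← intervalIntegral.integral_congr_ae (hae.mono fun x hx _ => hx),
      intervalIntegral.integral_add i1 i2, e1, e2, add_zero]

theorem core1 (k : ℝ) (hk : |k| < 2) :
    IntervalIntegrable (fun r : ℝ => Real.log |k - 2 * Real.cos (2 * π * r)|) volume 0 1 ∧
    ∫ r in (0 : ℝ)..1, Real.log |k - 2 * Real.cos (2 * π * r)| = 0 := by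
  obtain ⟨h1, h2⟩ := core0 k hk
  have hpi : (2 * π) ≠ 0 := by positivity
  constructor
  · have h3 := h1.comp_mul_left (c := 2 * π)
    rwa [zero_div, div_self hpi] at h3
  · have h3 := intervalIntegral.integral_comp_mul_left
      (fun θ : ℝ => Real.log |k - 2 * Real.cos θ|) (a := 0) (b := 1) hpi
    rw [mul_zero, mul_one, h2, smul_zero] at h3
    exact h3

theorem pre_icc' : (MeasurableEquiv.finTwoArrow : (Fin 2 → ℝ) ≃ᵐ ℝ × ℝ) ⁻¹'
    (Icc (0 : ℝ) 1 ×ˢ Icc (0 : ℝ) 1) = Icc (0 : Fin 2 → ℝ) 1 := by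
  ext x
  constructor
  · rintro ⟨h1, h2⟩
    refine ⟨fun i => ?_, fun i => ?_⟩
    · fin_cases i
      · exact h1.1
      · exact h2.1
    · fin_cases i
      · exact h1.2
      · exact h2.2
  · rintro ⟨h1, h2⟩
    exact ⟨⟨h1 0, h2 0⟩, ⟨h1 1, h2 1⟩⟩

theorem core2 (g : ℝ → ℝ) (hg : IntervalIntegrable g volume 0 1) :
    IntegrableOn (fun t : Fin 2 → ℝ => g (t 0)) (Icc 0 1) ∧
    ∫ t in Icc (0 : Fin 2 → ℝ) 1, g (t 0) = ∫ r in (0 : ℝ)..1, g r := by
  rw [intervalIntegrable_iff_integrableOn_Icc_of_le zero_le_one] at hg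
  have h0 := (volume_preserving_finTwoArrow ℝ).integrableOn_comp_preimage
    (MeasurableEquiv.finTwoArrow).measurableEmbedding
    (f := fun x : ℝ × ℝ => g x.1) (s := Icc (0 : ℝ) 1 ×ˢ Icc (0 : ℝ) 1)
  rw [pre_icc'] at h0
  constructor
  · refine h0.2 ?_
    unfold IntegrableOn
    rw [Measure.volume_eq_prod, ← Measure.prod_restrict]
    exact Integrable.comp_fst hg _
  · have h1 := (volume_preserving_finTwoArrow ℝ).setIntegral_preimage_emb
      (MeasurableEquiv.finTwoArrow).measurableEmbedding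
      (fun x : ℝ × ℝ => g x.1) (Icc (0 : ℝ) 1 ×ˢ Icc (0 : ℝ) 1)
    rw [pre_icc', Measure.volume_eq_prod, ← Measure.prod_restrict, integral_fun_fst] at h1
    rw [intervalIntegral.integral_of_le zero_le_one, ← integral_Icc_eq_integral_Ioc]
    refine h1.trans ?_
    simp

theorem ae_fin2 {P : ℝ → ℝ → Prop} (hP : MeasurableSet {x : ℝ × ℝ | P x.1 x.2})
    (h : ∀ᵐ r : ℝ, ∀ᵐ s : ℝ, P r s) :
    ∀ᵐ t : Fin 2 → ℝ ∂(volume.restrict (Icc (0 : Fin 2 → ℝ) 1)), P (t 0) (t 1) := by
  refine ae_restrict_of_ae ?_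
  have h1 : ∀ᵐ x : ℝ × ℝ, P x.1 x.2 := by
    rw [Measure.volume_eq_prod]
    exact (Measure.ae_prod_mem_iff_ae_ae_mem hP).2 h
  exact (volume_preserving_finTwoArrow ℝ).quasiMeasurePreserving.ae h1

theorem core3 (k : ℝ) : ∀ᵐ t : Fin 2 → ℝ ∂(volume.restrict (Icc (0 : Fin 2 → ℝ) 1)),
    k - 2 * Real.cos (2 * π * t 0) ≠ 0 ∧
    k - 2 * Real.cos (2 * π * t 0) - 2 * Real.cos (2 * π * t 1) ≠ 2 ∧
    k - 2 * Real.cos (2 * π * t 0) - 2 * Real.cos (2 * π * t 1) ≠ -2 := by
  refine ae_fin2 (P := fun r s => k - 2 * Real.cos (2 * π * r) ≠ 0 ∧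
    k - 2 * Real.cos (2 * π * r) - 2 * Real.cos (2 * π * s) ≠ 2 ∧
    k - 2 * Real.cos (2 * π * r) - 2 * Real.cos (2 * π * s) ≠ -2) ?_ ?_
  · refine IsOpen.measurableSet ?_
    refine IsOpen.inter ?_ (IsOpen.inter ?_ ?_)
    · exact isOpen_ne_fun (by fun_prop) (by fun_prop)
    · exact isOpen_ne_fun (by fun_prop) (by fun_prop)
    · exact isOpen_ne_fun (by fun_prop) (by fun_prop)
  · filter_upwards [(countable_cos2 (k / 2)).ae_notMem volume] with r hr
    filter_upwards [(countable_cos2 ((k - 2 * Real.cos (2 * π * r) - 2) / 2)).ae_notMem volume,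
      (countable_cos2 ((k - 2 * Real.cos (2 * π * r) + 2) / 2)).ae_notMem volume] with s h1 h2
    refine ⟨fun h => hr ?_, fun h => h1 ?_, fun h => h2 ?_⟩
    · show Real.cos (2 * π * r) = k / 2
      linarith
    · show Real.cos (2 * π * s) = (k - 2 * Real.cos (2 * π * r) - 2) / 2
      linarith
    · show Real.cos (2 * π * s) = (k - 2 * Real.cos (2 * π * r) + 2) / 2
      linarith

end Pool.Agent.P8H38.KS
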